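import Pool.Agent.NCA.Defs
import Pool.Agent.NCP.Abp

/-!
Project NCA, module Abp: the part of length `l < s` of an automaton with at most `s` states is computed
by a branching program with `s * s + 1` vertices.
-/

set_option autoImplicit false

namespace Pool.Agent.NCA

open Pool.Agent.NCK (PCA xv IsAff IsPABP)

variable {K : Type*} [Field K] {n k : ℕ}

private theorem abp_order {ι : Type*} [Fintype ι] (ht : ι → ℕ) (t : ℕ)
    (hcard : Fintype.card ι ≤ t) :
    ∃ e : ι → Fin t, Function.Injective e ∧ ∀ i j, ht i < ht j → e i < e j := by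
  classical
  let φ : ι → Lex (ℕ × Fin (Fintype.card ι)) := fun i => toLex (ht i, Fintype.equivFin ι i)
  have hφ : Function.Injective φ := by
    intro i j hij
    have h1 := congrArg (fun x => (ofLex x).2) hij
    exact (Fintype.equivFin ι).injective h1
  let _ : LinearOrder ι := LinearOrder.lift' φ hφ
  let iso := Fintype.orderIsoFinOfCardEq ι rfl
  refine ⟨fun i => Fin.castLE hcard (iso.symm i), ?_, ?_⟩
  · intro i j hij
    exact iso.symm.injective (Fin.castLE_injective hcard hij)
  · intro i j hij
    have h1 : i < j := by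
      show φ i < φ j
      exact Prod.Lex.toLex_lt_toLex.2 (Or.inl hij)
    have h2 : iso.symm i < iso.symm j := iso.symm.strictMono h1
    exact h2

private theorem aff_const (c : K) : IsAff K (algebraMap K (PCA K n k) c) :=
  ⟨c, fun _ _ => 0, by simp⟩

private theorem aff_zero : IsAff K (0 : PCA K n k) := ⟨0, fun _ _ => 0, by simp⟩

private theorem aff_step {Q : Type*} (N : Fin k → Fin n → Matrix Q Q K) (p q : Q) :
    IsAff K (stepM N p q) :=
  ⟨0, fun j i => N j i p q, by simp [stepM]⟩

private theorem aff_stepsum {Q : Type*} [Fintype Q] (N : Fin k → Fin n → Matrix Q Q K)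
    (v : Q → K) (p : Q) : IsAff K (∑ q, v q • stepM N p q) := by
  refine ⟨0, fun j i => ∑ q, v q * N j i p q, ?_⟩
  rw [map_zero, zero_add]
  have h : ∀ q, v q • stepM N p q = ∑ j, ∑ i, (v q * N j i p q) • xv K j i := by
    intro q
    rw [stepM, Matrix.of_apply, Finset.smul_sum]
    refine Finset.sum_congr rfl fun j _ => ?_
    rw [Finset.smul_sum]
    refine Finset.sum_congr rfl fun i _ => ?_
    rw [smul_smul]
  rw [Finset.sum_congr rfl fun q _ => h q, Finset.sum_comm]
  refine Finset.sum_congr rfl fun j _ => ?_
  rw [Finset.sum_comm]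
  refine Finset.sum_congr rfl fun i _ => ?_
  rw [Finset.sum_smul]

private theorem abp_gen {ι : Type*} [Fintype ι] [DecidableEq ι] (ht : ι → ℕ)
    (L : Matrix ι ι (PCA K n k)) (t : ℕ) (hcard : Fintype.card ι ≤ t)
    (hA : ∀ i j, IsAff K (L i j)) (hL : ∀ i j, ht j ≤ ht i → L i j = 0)
    (g : ι → PCA K n k) (b : ι)
    (hg : ∀ i, g i = (if i = b then 1 else 0) + ∑ j, L i j * g j) (a : ι) :
    IsPABP K t (g a) := by
  classical
  obtain ⟨e, he, hmono⟩ := abp_order ht t hcard
  let L' : Matrix (Fin t) (Fin t) (PCA K n k) := Matrix.of fun x y =>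
    if h : (∃ i, e i = x) ∧ (∃ j, e j = y) then L h.1.choose h.2.choose else 0
  have hL1 : ∀ i j, L' (e i) (e j) = L i j := by
    intro i j
    have h : (∃ i', e i' = e i) ∧ (∃ j', e j' = e j) := ⟨⟨i, rfl⟩, ⟨j, rfl⟩⟩
    show (if h : (∃ i', e i' = e i) ∧ (∃ j', e j' = e j) then L h.1.choose h.2.choose else 0) = _
    rw [dif_pos h]
    rw [he h.1.choose_spec, he h.2.choose_spec]
  have hL2 : ∀ x y, (∀ j, e j ≠ y) → L' x y = 0 := by
    intro x y hy
    show (if h : (∃ i', e i' = x) ∧ (∃ j', e j' = y) then L h.1.choose h.2.choose else 0) = _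
    rw [dif_neg]
    rintro ⟨_, j, hj⟩
    exact hy j hj
  have hL3 : ∀ x y, y ≤ x → L' x y = 0 := by
    intro x y hxy
    show (if h : (∃ i', e i' = x) ∧ (∃ j', e j' = y) then L h.1.choose h.2.choose else 0) = _
    split_ifs with h
    · apply hL
      by_contra hcon
      have h1 := hmono _ _ (not_le.1 hcon)
      rw [h.1.choose_spec, h.2.choose_spec] at h1
      exact absurd hxy (not_le.2 h1)
    · rfl
  have hA' : ∀ x y, IsAff K (L' x y) := by
    intro x y
    show IsAff K (if h : (∃ i', e i' = x) ∧ (∃ j', e j' = y) then L h.1.choose h.2.choose else 0)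
    split_ifs with h
    · exact hA _ _
    · exact aff_zero
  refine ⟨L', e a, e b, hA', hL3, ?_⟩
  have hrec := Pool.Agent.NCP.abp_rec L' hL3
  set G := ∑ l ∈ Finset.range t, L' ^ l with hG
  have key : ∀ d : ℕ, ∀ i : ι, t ≤ (e i : ℕ) + d → g i = G (e i) (e b) := by
    intro d
    induction d with
    | zero =>
      intro i hi
      have := (e i).2
      omega
    | succ d ih =>
      intro i hi
      have h1 : G (e i) (e b) = (1 : Matrix (Fin t) (Fin t) (PCA K n k)) (e i) (e b) +
          ∑ y, L' (e i) y * G y (e b) := by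
        have := congrFun (congrFun hrec (e i)) (e b)
        rw [Matrix.add_apply, Matrix.mul_apply] at this
        exact this
      have h2 : ∑ j, L i j * g j = ∑ y, L' (e i) y * G y (e b) := by
        refine Finset.sum_of_injOn e he.injOn (fun _ _ => Finset.mem_coe.2 (Finset.mem_univ _))
          ?_ ?_
        · intro y _ hy
          rw [hL2 (e i) y, zero_mul]
          intro j hj
          exact hy ⟨j, Finset.mem_coe.2 (Finset.mem_univ j), hj⟩
        · intro j _
          rw [hL1]
          by_cases hj : e j ≤ e i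
          · rw [← hL1, hL3 _ _ hj, zero_mul, zero_mul]
          · have hj' : (e i : ℕ) < (e j : ℕ) := Fin.lt_def.1 (not_le.1 hj)
            rw [ih j (by omega)]
      rw [h1, hg i, h2, Matrix.one_apply]
      congr 1
      by_cases hib : i = b
      · rw [if_pos hib, if_pos (congrArg e hib)]
      · rw [if_neg hib, if_neg (fun h => hib (he h))]
  exact key t a (by omega)

/-- vertices: source, sink, layers -/
private abbrev V (Q : Type*) (l : ℕ) : Type _ := Option (Option (Q × Fin l))

private def hgt {Q : Type*} {l : ℕ} : V Q l → ℕ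
  | none => 0
  | some none => l + 2
  | some (some (_, i)) => i + 1

private noncomputable def edg {Q : Type*} [Fintype Q] (u : Q → K)
    (N : Fin k → Fin n → Matrix Q Q K) (v : Q → K) (l : ℕ) : V Q l → V Q l → PCA K n k
  | none, none => 0
  | none, some none => if l = 0 then algebraMap K _ (∑ p, u p * v p) else 0
  | none, some (some (p, i)) => if (i : ℕ) = 0 then algebraMap K _ (u p) else 0
  | some none, _ => 0
  | some (some _), none => 0
  | some (some (p, i)), some none => if (i : ℕ) + 1 = l then ∑ q, v q • stepM N p q else 0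
  | some (some (p, i)), some (some (q, j)) => if (j : ℕ) = i + 1 then stepM N p q else 0

private noncomputable def mem {Q : Type*} [Fintype Q] [DecidableEq Q] (u : Q → K)
    (N : Fin k → Fin n → Matrix Q Q K) (v : Q → K) (l : ℕ) : V Q l → PCA K n k
  | none => run u N v l
  | some none => 1
  | some (some (p, i)) => ∑ q, v q • (stepM N ^ (l - i)) p q

private theorem mem_succ {Q : Type*} [Fintype Q] [DecidableEq Q]
    (N : Fin k → Fin n → Matrix Q Q K) (v : Q → K) (m : ℕ) (p : Q) :
    ∑ q, v q • (stepM N ^ (m + 1)) p q =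
      ∑ r, stepM N p r * ∑ q, v q • (stepM N ^ m) r q := by
  have h : ∀ q, v q • (stepM N ^ (m + 1)) p q =
      ∑ r, stepM N p r * (v q • (stepM N ^ m) r q) := by
    intro q
    rw [pow_succ', Matrix.mul_apply, Finset.smul_sum]
    refine Finset.sum_congr rfl fun r _ => ?_
    rw [mul_smul_comm]
  rw [Finset.sum_congr rfl fun q _ => h q, Finset.sum_comm]
  refine Finset.sum_congr rfl fun r _ => ?_
  rw [Finset.mul_sum]

private theorem run_eq {Q : Type*} [Fintype Q] [DecidableEq Q] (u : Q → K)
    (N : Fin k → Fin n → Matrix Q Q K) (v : Q → K) (l : ℕ) :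
    run u N v l = ∑ p, algebraMap K (PCA K n k) (u p) * ∑ q, v q • (stepM N ^ l) p q := by
  rw [run]
  refine Finset.sum_congr rfl fun p _ => ?_
  rw [Finset.mul_sum]
  refine Finset.sum_congr rfl fun q _ => ?_
  rw [← Algebra.smul_def, smul_smul]

private theorem mem_rec {Q : Type*} [Fintype Q] [DecidableEq Q] (u : Q → K)
    (N : Fin k → Fin n → Matrix Q Q K) (v : Q → K) (l : ℕ) (x : V Q l) :
    mem u N v l x = (if x = some none then 1 else 0) +
      ∑ y, edg u N v l x y * mem u N v l y := by
  rw [Fintype.sum_option, Fintype.sum_option, Fintype.sum_prod_type]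
  rcases x with _ | _ | ⟨p, i⟩
  · rw [if_neg (by simp)]
    simp only [edg, mem]
    rw [zero_mul, zero_add, zero_add, mul_one]
    by_cases hl : l = 0
    · subst hl
      rw [if_pos rfl]
      have h0 : ∑ x : Q, ∑ y : Fin 0, (if (y : ℕ) = 0 then algebraMap K (PCA K n k) (u x) else 0) *
          ∑ q, v q • (stepM N ^ (0 - (y : ℕ))) x q = 0 := by
        refine Finset.sum_eq_zero fun x _ => ?_
        exact Finset.sum_eq_zero fun y _ => y.elim0
      rw [h0, add_zero, run_eq, map_sum]
      refine Finset.sum_congr rfl fun p _ => ?_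
      rw [pow_zero, map_mul]
      congr 1
      rw [Finset.sum_eq_single p]
      · rw [Matrix.one_apply_eq, Algebra.smul_def, mul_one]
      · intro q _ hq
        rw [Matrix.one_apply_ne (Ne.symm hq), smul_zero]
      · intro h
        exact absurd (Finset.mem_univ p) h
    · rw [if_neg hl, zero_add, run_eq]
      refine Finset.sum_congr rfl fun p _ => ?_
      have hpos : 0 < l := Nat.pos_of_ne_zero hl
      rw [Finset.sum_eq_single (⟨0, hpos⟩ : Fin l)]
      · rw [if_pos rfl, Nat.sub_zero]
      · intro i _ hi
        rw [if_neg, zero_mul]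
        intro h
        exact hi (Fin.ext h)
      · intro h
        exact absurd (Finset.mem_univ _) h
  · rw [if_pos rfl]
    simp only [edg, mem, zero_mul, Finset.sum_const_zero, add_zero]
  · rw [if_neg (by simp)]
    simp only [edg, mem]
    rw [zero_mul, zero_add, zero_add, mul_one]
    have hi := i.2
    by_cases hil : (i : ℕ) + 1 = l
    · rw [if_pos hil]
      have h0 : ∑ x : Q, ∑ y : Fin l, (if (y : ℕ) = (i : ℕ) + 1 then stepM N p x else 0) *
          ∑ q, v q • (stepM N ^ (l - (y : ℕ))) x q = 0 := by
        refine Finset.sum_eq_zero fun x _ => ?_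
        refine Finset.sum_eq_zero fun y _ => ?_
        have hy := y.2
        rw [if_neg (by omega), zero_mul]
      rw [h0, add_zero]
      have h1 : l - (i : ℕ) = 1 := by omega
      rw [h1, pow_one]
    · rw [if_neg hil, zero_add]
      have h1 : l - (i : ℕ) = (l - (i + 1)) + 1 := by omega
      rw [h1, mem_succ]
      refine Finset.sum_congr rfl fun r _ => ?_
      have hpos : (i : ℕ) + 1 < l := by omega
      rw [Finset.sum_eq_single (⟨(i : ℕ) + 1, hpos⟩ : Fin l)]
      · rw [if_pos rfl]
      · intro j _ hj
        rw [if_neg, zero_mul]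
        intro h
        exact hj (Fin.ext h)
      · intro h
        exact absurd (Finset.mem_univ _) h

theorem run_abp {Q : Type*} [Fintype Q] [DecidableEq Q] (u : Q → K)
    (N : Fin k → Fin n → Matrix Q Q K) (v : Q → K) (s l : ℕ) (hs : Fintype.card Q ≤ s)
    (hl : l < s) : IsPABP K (s * s + 1) (run u N v l) := by
  have h := abp_gen (K := K) (n := n) (k := k) (ι := V Q l) hgt (Matrix.of (edg u N v l))
    (s * s + 1) ?_ ?_ ?_ (mem u N v l) (some none) ?_ none
  · exact h
  · rw [Fintype.card_option, Fintype.card_option, Fintype.card_prod, Fintype.card_fin]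
    have h1 : Fintype.card Q * l ≤ s * l := Nat.mul_le_mul_right l hs
    have h2 : s * l + s ≤ s * s := by
      calc s * l + s = s * (l + 1) := by ring
        _ ≤ s * s := Nat.mul_le_mul_left s hl
    omega
  · intro x y
    rw [Matrix.of_apply]
    rcases x with _ | _ | ⟨p, i⟩ <;> rcases y with _ | _ | ⟨q, j⟩ <;> simp only [edg]
    · exact aff_zero
    · split_ifs
      · exact aff_const _
      · exact aff_zero
    · split_ifs
      · exact aff_const _
      · exact aff_zero
    · exact aff_zero
    · exact aff_zero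
    · exact aff_zero
    · exact aff_zero
    · split_ifs
      · exact aff_stepsum N v p
      · exact aff_zero
    · split_ifs
      · exact aff_step N p q
      · exact aff_zero
  · intro x y hxy
    rw [Matrix.of_apply]
    rcases x with _ | _ | ⟨p, i⟩ <;> rcases y with _ | _ | ⟨q, j⟩ <;>
      simp only [edg, hgt] at hxy ⊢
    · omega
    · omega
    · have := i.2
      omega
    · rw [if_neg (by omega)]
  · intro x
    exact mem_rec u N v l x

end Pool.Agent.NCA
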