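import Pool.Agent.NCA.Skew

/-!
Project NCA, module Phi: the tensor product of free algebras embeds in the skew monoid algebra.

`mon w` is the product over the tapes `j` and the positions `i` of the variable `(j, i, w_j[i])`.
Plan.  `mon_mul`: `(v * w) j` is the concatenation; `List.prod` of `mapIdx`/`zipIdx`, the positions of the
second word are shifted by `length (v j)` = the exponent (`MvPolynomial.rename`, `map_prod`).
`PhiHom` is a ring homomorphism (given, from `mon_mul`, `mon_one`); `Phi_single`.
`Phi_injective`: let `f` be in the kernel and `w0` with `f.coeff w0 ≠ 0`; the coefficient of `Phi f` at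
`lenG w0` is `∑ over the w in the support with lenG w = lenG w0 of C (f.coeff w) * mon w`; different `w` with the same
`lenG` have different monomials `mon w` (`mon w` is a monomial with exponents 0, 1; the variable
`(j, i, a)` divides it iff `a` is the letter number `i` of `w j`), so its coefficient at the exponent of
`mon w0` is `f.coeff w0 ≠ 0`.
-/

set_option autoImplicit false

namespace Pool.Agent.NCA

open Pool.Agent.NCK (PCA xv)

variable {K : Type*} [Field K] {n k : ℕ}

/-- The lengths of the words. -/
def lenG (w : Wd k n) : GG k := fun j => Multiplicative.ofAdd (w j).toList.length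

theorem lenG_one : lenG (1 : Wd k n) = 1 := by
  funext j
  simp [lenG]

theorem lenG_mul (v w : Wd k n) : lenG (v * w) = lenG v * lenG w := by
  funext j
  simp [lenG, FreeMonoid.toList_mul]

/-- The monomial of a tuple of words. -/
noncomputable def mon (K : Type*) [Field K] {k n : ℕ} (w : Wd k n) : BB K k n :=
  ∏ j, ∏ i : Fin (w j).toList.length, MvPolynomial.X (j, (i : ℕ), (w j).toList.get i)

theorem mon_one : mon K (1 : Wd k n) = 1 := by
  unfold mon
  refine Finset.prod_eq_one fun j _ => ?_
  haveI : IsEmpty (Fin ((1 : Wd k n) j).toList.length) := by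
    show IsEmpty (Fin 0)
    infer_instance
  exact Finset.prod_of_isEmpty _

/-- product over the positions of a list -/
private def lp {α M : Type*} [CommMonoid M] : (ℕ → α → M) → List α → M
  | _, [] => 1
  | F, a :: l => F 0 a * lp (fun i => F (i + 1)) l

private theorem lp_eq {α M : Type*} [CommMonoid M] (l : List α) : ∀ F : ℕ → α → M,
    ∏ i : Fin l.length, F (i : ℕ) (l.get i) = lp F l := by
  induction l with
  | nil =>
    intro F
    rfl
  | cons a l ih =>
    intro F
    show ∏ i : Fin (l.length + 1), F (i : ℕ) ((a :: l).get i) = F 0 a * lp (fun i => F (i + 1)) l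
    rw [Fin.prod_univ_succ, ← ih]
    rfl

private theorem lp_append {α M : Type*} [CommMonoid M] (l l' : List α) : ∀ F : ℕ → α → M,
    lp F (l ++ l') = lp F l * lp (fun i => F (i + l.length)) l' := by
  induction l with
  | nil =>
    intro F
    simp [lp]
  | cons a l ih =>
    intro F
    rw [List.cons_append]
    show F 0 a * lp (fun i => F (i + 1)) (l ++ l') = (F 0 a * lp (fun i => F (i + 1)) l) * _
    rw [ih, mul_assoc, List.length_cons]
    congr 3

private theorem mon_eq (w : Wd k n) : mon K w =
    ∏ j, lp (fun i a => (MvPolynomial.X (j, i, a) : BB K k n)) (w j).toList := by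
  unfold mon
  refine Finset.prod_congr rfl fun j _ => ?_
  exact lp_eq (w j).toList (fun i a => (MvPolynomial.X (j, i, a) : BB K k n))

theorem mon_mul (v w : Wd k n) : mon K (v * w) = mon K v * (lenG v • mon K w) := by
  have h1 : lenG v • mon K w =
      ∏ j, lp (fun i a => (MvPolynomial.X (j, i + (v j).toList.length, a) : BB K k n))
        (w j).toList := by
    rw [smul_def']
    unfold mon
    rw [map_prod]
    refine Finset.prod_congr rfl fun j _ => ?_
    rw [map_prod, ← lp_eq]
    refine Finset.prod_congr rfl fun i _ => ?_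
    rw [MvPolynomial.rename_X]
    rfl
  rw [h1, mon_eq, mon_eq, ← Finset.prod_mul_distrib]
  refine Finset.prod_congr rfl fun j _ => ?_
  rw [Pi.mul_apply, FreeMonoid.toList_mul, lp_append]

/-- The embedding on tuples of words. -/
noncomputable def monHom (K : Type*) [Field K] (k n : ℕ) : Wd k n →* SS K k n where
  toFun w := SkewMonoidAlgebra.single (lenG w) (mon K w)
  map_one' := by
    show SkewMonoidAlgebra.single (lenG (1 : Wd k n)) (mon K (1 : Wd k n)) = 1
    rw [lenG_one, mon_one]
    rfl
  map_mul' v w := by
    show SkewMonoidAlgebra.single (lenG (v * w)) (mon K (v * w)) = _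
    rw [lenG_mul, mon_mul, SkewMonoidAlgebra.mul_def, SkewMonoidAlgebra.sum_single_index,
      SkewMonoidAlgebra.sum_single_index]
    · simp
    · rw [SkewMonoidAlgebra.sum_single_index] <;> simp

/-- The embedding. -/
noncomputable def Phi (K : Type*) [Field K] (k n : ℕ) : PCA K n k →+ SS K k n where
  toFun f := f.coeff.sum fun w c => SkewMonoidAlgebra.single (lenG w) (MvPolynomial.C c * mon K w)
  map_zero' := by simp
  map_add' f g := by
    rw [MonoidAlgebra.coeff_add, Finsupp.sum_add_index']
    · intro w; simp
    · intro w a b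
      rw [map_add, add_mul, SkewMonoidAlgebra.single_add]

theorem Phi_single (w : Wd k n) (c : K) : Phi K k n (MonoidAlgebra.single w c) =
    SkewMonoidAlgebra.single (lenG w) (MvPolynomial.C c * mon K w) := by
  show Finsupp.sum (Finsupp.single w c) (fun (w : Wd k n) (c : K) =>
    (SkewMonoidAlgebra.single (lenG w) (MvPolynomial.C c * mon K w) : SS K k n)) = _
  rw [Finsupp.sum_single_index]
  simp

theorem Phi_mul (f g : PCA K n k) : Phi K k n (f * g) = Phi K k n f * Phi K k n g := by
  induction f using MonoidAlgebra.induction_linear with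
  | zero => rw [zero_mul, map_zero, zero_mul]
  | add f1 f2 h1 h2 => rw [add_mul, map_add, map_add, h1, h2, add_mul]
  | single v c =>
    induction g using MonoidAlgebra.induction_linear with
    | zero => rw [mul_zero, map_zero, mul_zero]
    | add f1 f2 h1 h2 => rw [mul_add, map_add, map_add, h1, h2, mul_add]
    | single w d =>
      rw [MonoidAlgebra.single_mul_single, Phi_single, Phi_single, Phi_single,
        SkewMonoidAlgebra.single_mul_single, lenG_mul, mon_mul]
      congr 1
      have h1 : lenG v • (MvPolynomial.C d * mon K w) = MvPolynomial.C d * (lenG v • mon K w) := by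
        rw [smul_def', smul_def', map_mul, MvPolynomial.rename_C]
      rw [h1, map_mul]
      ring

theorem Phi_one : Phi K k n 1 = 1 := by
  rw [MonoidAlgebra.one_def, Phi_single, lenG_one, mon_one, map_one, mul_one]
  rfl

private theorem Phi_coeff (f : PCA K n k) (x : GG k) : (Phi K k n f).coeff x =
    ∑ w ∈ f.coeff.support, if lenG w = x then MvPolynomial.C (f.coeff w) * mon K w else 0 := by
  classical
  show (Finsupp.sum f.coeff (fun (w : Wd k n) (c : K) =>
    (SkewMonoidAlgebra.single (lenG w) (MvPolynomial.C c * mon K w) : SS K k n))).coeff x = _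
  unfold Finsupp.sum
  have h1 := map_sum (SkewMonoidAlgebra.coeffAddEquiv (k := BB K k n) (G := GG k))
    (fun w => (SkewMonoidAlgebra.single (lenG w) (MvPolynomial.C (f.coeff w) * mon K w) :
      SS K k n)) f.coeff.support
  have h2 : (∑ w ∈ f.coeff.support, (SkewMonoidAlgebra.single (lenG w)
      (MvPolynomial.C (f.coeff w) * mon K w) : SS K k n)).coeff =
      ∑ w ∈ f.coeff.support, (SkewMonoidAlgebra.single (lenG w)
      (MvPolynomial.C (f.coeff w) * mon K w) : SS K k n).coeff := h1
  rw [h2, Finsupp.finsetSum_apply]
  refine Finset.sum_congr rfl fun w _ => ?_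
  rw [SkewMonoidAlgebra.coeff_single_apply]

/-- the exponent of the monomial of a tuple of words -/
private noncomputable def ex (w : Wd k n) : (Fin k × ℕ × Fin n) →₀ ℕ :=
  ∑ j, ∑ i : Fin (w j).toList.length, Finsupp.single (j, (i : ℕ), (w j).toList.get i) 1

private theorem mon_ex (w : Wd k n) : mon K w = MvPolynomial.monomial (ex w) 1 := by
  unfold mon ex
  rw [MvPolynomial.monomial_sum_one]
  refine Finset.prod_congr rfl fun j _ => ?_
  rw [MvPolynomial.monomial_sum_one]
  rfl

private theorem ex_ne (w : Wd k n) (j0 : Fin k) (i0 : ℕ) (a0 : Fin n) :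
    ex w (j0, i0, a0) ≠ 0 ↔ (w j0).toList[i0]? = some a0 := by
  classical
  unfold ex
  rw [Finsupp.finsetSum_apply, Ne, Finset.sum_eq_zero_iff, List.getElem?_eq_some_iff]
  push Not
  constructor
  · rintro ⟨j, _, hj⟩
    rw [Finsupp.finsetSum_apply, Ne, Finset.sum_eq_zero_iff] at hj
    push Not at hj
    obtain ⟨i, _, hi⟩ := hj
    rw [Finsupp.single_apply] at hi
    split_ifs at hi with h
    · simp only [Prod.mk.injEq] at h
      obtain ⟨rfl, h2, h3⟩ := h
      subst h2
      exact ⟨i.2, h3⟩
    · exact absurd rfl hi
  · rintro ⟨h, h2⟩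
    refine ⟨j0, Finset.mem_univ _, ?_⟩
    rw [Finsupp.finsetSum_apply, Ne, Finset.sum_eq_zero_iff]
    push Not
    refine ⟨⟨i0, h⟩, Finset.mem_univ _, ?_⟩
    rw [Finsupp.single_apply, if_pos]
    · exact one_ne_zero
    · show (j0, i0, (w j0).toList.get ⟨i0, h⟩) = (j0, i0, a0)
      rw [← h2]
      rfl

private theorem ex_inj {w w' : Wd k n} (h : ex w = ex w') : w = w' := by
  funext j
  apply FreeMonoid.toList.injective
  apply List.ext_getElem?
  intro i
  have key : ∀ a, (w j).toList[i]? = some a ↔ (w' j).toList[i]? = some a := by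
    intro a
    rw [← ex_ne, ← ex_ne, h]
  exact Option.ext key

theorem Phi_injective : Function.Injective (Phi K k n) := by
  classical
  rw [injective_iff_map_eq_zero]
  intro f hf
  by_contra hne
  have h1 : ∃ w0, f.coeff w0 ≠ 0 := by
    by_contra hcon
    push Not at hcon
    apply hne
    apply MonoidAlgebra.coeff_injective
    ext w
    exact hcon w
  obtain ⟨w0, hw0⟩ := h1
  have h2 := Phi_coeff f (lenG w0)
  rw [hf, SkewMonoidAlgebra.coeff_zero, Finsupp.zero_apply] at h2
  have h3 := congrArg (MvPolynomial.coeff (ex w0)) h2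
  rw [MvPolynomial.coeff_zero, MvPolynomial.coeff_sum, Finset.sum_eq_single w0] at h3
  · rw [if_pos rfl, mon_ex, MvPolynomial.C_mul_monomial, mul_one, MvPolynomial.coeff_monomial,
      if_pos rfl] at h3
    exact hw0 h3.symm
  · intro w _ hw
    split_ifs with h
    · rw [mon_ex, MvPolynomial.C_mul_monomial, mul_one, MvPolynomial.coeff_monomial, if_neg]
      intro he
      exact hw (ex_inj he)
    · rw [MvPolynomial.coeff_zero]
  · intro h
    exact absurd (Finsupp.mem_support_iff.2 hw0) h

/-- The exponents of the value of an element all of whose words have total length `≤ m`. -/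
theorem Phi_support {f : PCA K n k} {m : ℕ} (hf : ∀ w, f.coeff w ≠ 0 → len w ≤ m) (x : GG k)
    (hx : (Phi K k n f).coeff x ≠ 0) (j : Fin k) : Multiplicative.toAdd (x j) ≤ m := by
  classical
  rw [Phi_coeff] at hx
  obtain ⟨w, hw, hne⟩ := Finset.exists_ne_zero_of_sum_ne_zero hx
  split_ifs at hne with h
  · rw [← h]
    refine le_trans ?_ (hf w (Finsupp.mem_support_iff.1 hw))
    show (w j).toList.length ≤ ∑ j, (w j).toList.length
    exact Finset.single_le_sum (f := fun j => (w j).toList.length) (fun _ _ => Nat.zero_le _)
      (Finset.mem_univ j)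
  · exact absurd rfl hne

end Pool.Agent.NCA
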