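import Pool.Agent.NCA.Skew

/-!
Project NCA, module SkewRank: more than `card Q` vectors in `Q → SS` are left dependent.

Plan.  Choose `d` with `card Q * (d + m) ^ k < (m' ) * d ^ k`, `m' = card I > card Q` (possible:
`((d + m) / d) ^ k → 1`; e.g. `d = m * k * (card Q + 1) * 2 ^ k + 1` or use
`Tendsto` of `(1 + m / d) ^ k`).  Box `B_e = {x : GG k | all exponents < e}` ≃ `Fin k → Fin e`, `card = e ^ k`.
For `h : I × (Fin k → Fin d) → BB` put `H i = ∑ x, single (x) (h (i, x)) : SS`.  The map
`h ↦ (q, y) ↦ (∑ i, H i * r i q).coeff y`, `y` in the box `B_(d + m)`, from `(I × (Fin k → Fin d) → BB)` to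
`(Q × (Fin k → Fin (d + m)) → BB)` is `BB`-linear (left multiplication by constants `single 1 b`:
`(single x (b * c)) * s = b • (single x c * s)` coefficientwise, `SkewMonoidAlgebra.mul_def`,
`BB` is commutative).  If it were injective then `card_le_of_injective` (`StrongRankCondition`) would give
`card I * d ^ k ≤ card Q * (d + m) ^ k`.  So there is `h ≠ 0` in the kernel; `H i ≠ 0` for some `i`, and
`∑ i, H i * r i q` has no exponents outside the box `B_(d + m)` (exponents of a product are sums:
`x < d`, exponent of `r i q` `≤ m`), so it is `0`.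
-/

set_option autoImplicit false

namespace Pool.Agent.NCA

open Pool.Agent.NCK (PCA xv)

variable {K : Type*} [Field K] {n k : ℕ}

theorem exists_box (k m a b : ℕ) (hab : a < b) : ∃ d : ℕ, a * (d + m) ^ k < b * d ^ k := by
  have h1 : Filter.Tendsto (fun d : ℕ => (a : ℝ) * (1 + (m : ℝ) / (d : ℝ)) ^ k) Filter.atTop
      (nhds ((a : ℝ) * (1 + 0) ^ k)) :=
    ((tendsto_const_nhds.add (tendsto_const_div_atTop_nhds_zero_nat (m : ℝ))).pow k).const_mul _
  have h2 : (a : ℝ) * (1 + 0) ^ k < b := by
    rw [add_zero, one_pow, mul_one]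
    exact_mod_cast hab
  obtain ⟨d, hd1, hd2⟩ := ((h1.eventually (gt_mem_nhds h2)).and
    (Filter.eventually_gt_atTop 0)).exists
  refine ⟨d, ?_⟩
  have hd : (0 : ℝ) < d := by exact_mod_cast hd2
  have h3 : (a : ℝ) * ((d : ℝ) + m) ^ k < b * (d : ℝ) ^ k := by
    have h4 : ((d : ℝ) + m) ^ k = (1 + (m : ℝ) / (d : ℝ)) ^ k * (d : ℝ) ^ k := by
      rw [← mul_pow]
      congr 1
      field_simp
    rw [h4, ← mul_assoc]
    exact mul_lt_mul_of_pos_right hd1 (pow_pos hd k)
  exact_mod_cast h3

/-- the coefficient as an additive map -/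
private noncomputable def cf (y : GG k) : SS K k n →+ BB K k n where
  toFun s := s.coeff y
  map_zero' := rfl
  map_add' s t := by
    rw [SkewMonoidAlgebra.coeff_add]
    rfl

private theorem cf_apply (y : GG k) (s : SS K k n) : cf y s = s.coeff y := rfl

private theorem coeff_single_mul' (x : GG k) (b : BB K k n) (s : SS K k n) (y : GG k) :
    (SkewMonoidAlgebra.single x b * s).coeff y =
      b * (SkewMonoidAlgebra.single x 1 * s).coeff y := by
  classical
  rw [SkewMonoidAlgebra.coeff_mul, SkewMonoidAlgebra.coeff_mul,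
    SkewMonoidAlgebra.sum_single_index, SkewMonoidAlgebra.sum_single_index,
    SkewMonoidAlgebra.sum_def', SkewMonoidAlgebra.sum_def', Finset.mul_sum]
  · refine Finset.sum_congr rfl fun z _ => ?_
    split_ifs
    · rw [one_mul]
    · rw [mul_zero]
  · rw [SkewMonoidAlgebra.sum_def']
    exact Finset.sum_eq_zero fun z _ => by simp
  · rw [SkewMonoidAlgebra.sum_def']
    exact Finset.sum_eq_zero fun z _ => by simp

private theorem exists_of_coeff_ne {x : GG k} {b : BB K k n} {s : SS K k n} {y : GG k}
    (h : (SkewMonoidAlgebra.single x b * s).coeff y ≠ 0) :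
    ∃ z, s.coeff z ≠ 0 ∧ x * z = y := by
  classical
  rw [SkewMonoidAlgebra.coeff_mul, SkewMonoidAlgebra.sum_single_index,
    SkewMonoidAlgebra.sum_def'] at h
  · obtain ⟨z, hz, hne⟩ := Finset.exists_ne_zero_of_sum_ne_zero h
    refine ⟨z, ?_, ?_⟩
    · exact Finsupp.mem_support_iff.1 hz
    · by_contra hxz
      rw [if_neg hxz] at hne
      exact hne rfl
  · rw [SkewMonoidAlgebra.sum_def']
    exact Finset.sum_eq_zero fun z _ => by simp

/-- the element of the box -/
private def bx {e : ℕ} (x : Fin k → Fin e) : GG k := fun j => Multiplicative.ofAdd (x j : ℕ)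

private theorem bx_inj {e : ℕ} : Function.Injective (bx : (Fin k → Fin e) → GG k) := by
  intro x y h
  funext j
  have h1 := congrFun h j
  exact Fin.ext (Multiplicative.ofAdd.injective h1)

theorem exists_relation {Q I : Type*} [Fintype Q] [Fintype I] [DecidableEq I]
    (hc : Fintype.card Q < Fintype.card I) (m : ℕ) (r : I → Q → SS K k n)
    (hr : ∀ i q x, (r i q).coeff x ≠ 0 → ∀ j, Multiplicative.toAdd (x j) ≤ m) :
    ∃ H : I → SS K k n, (∃ i, H i ≠ 0) ∧ ∀ q, ∑ i, H i * r i q = 0 := by
  classical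
  obtain ⟨d, hd⟩ := exists_box k m _ _ hc
  -- the linear map
  let Φ : (I × (Fin k → Fin d) → BB K k n) →ₗ[BB K k n]
      (Q × (Fin k → Fin (d + m)) → BB K k n) :=
    { toFun := fun h p => ∑ i, ∑ x, h (i, x) *
        (SkewMonoidAlgebra.single (bx x) 1 * r i p.1).coeff (bx p.2)
      map_add' := fun h h' => by
        funext p
        simp only [Pi.add_apply, add_mul, Finset.sum_add_distrib]
      map_smul' := fun c h => by
        funext p
        simp only [Pi.smul_apply, smul_eq_mul, RingHom.id_apply, Finset.mul_sum, mul_assoc] }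
  have hninj : ¬ Function.Injective Φ := by
    intro hinj
    have h1 := card_le_of_injective (BB K k n) Φ hinj
    simp only [Fintype.card_prod, Fintype.card_fun, Fintype.card_fin] at h1
    omega
  obtain ⟨h, hΦ, hne⟩ : ∃ h, Φ h = 0 ∧ h ≠ 0 := by
    by_contra hcon
    refine hninj ((injective_iff_map_eq_zero Φ).2 fun h hh => ?_)
    by_contra hne
    exact hcon ⟨h, hh, hne⟩
  refine ⟨fun i => ∑ x, SkewMonoidAlgebra.single (bx x) (h (i, x)), ?_, ?_⟩
  · obtain ⟨⟨i, x⟩, hix⟩ := Function.ne_iff.1 hne
    refine ⟨i, fun h0 => hix ?_⟩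
    have h1 : cf (bx x) (∑ x', SkewMonoidAlgebra.single (bx x') (h (i, x'))) = h (i, x) := by
      rw [map_sum, Finset.sum_eq_single x]
      · rw [cf_apply, SkewMonoidAlgebra.coeff_single, Finsupp.single_eq_same]
      · intro x' _ hx'
        rw [cf_apply, SkewMonoidAlgebra.coeff_single, Finsupp.single_apply,
          if_neg fun e => hx' (bx_inj e)]
      · intro hx
        exact absurd (Finset.mem_univ x) hx
    have h5 : (∑ x', SkewMonoidAlgebra.single (bx x') (h (i, x')) : SS K k n) = 0 := h0
    rw [← h1, h5, map_zero]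
    rfl
  · intro q
    apply SkewMonoidAlgebra.coeff_injective
    ext1 y
    have h2 : (∑ i, (∑ x, SkewMonoidAlgebra.single (bx x) (h (i, x))) * r i q).coeff y =
        ∑ i, ∑ x, (SkewMonoidAlgebra.single (bx x) (h (i, x)) * r i q).coeff y := by
      rw [← cf_apply, map_sum]
      refine Finset.sum_congr rfl fun i _ => ?_
      rw [Finset.sum_mul, map_sum]
      rfl
    rw [h2]
    by_cases hy : ∃ y' : Fin k → Fin (d + m), bx y' = y
    · obtain ⟨y', rfl⟩ := hy
      have h3 := congrFun hΦ (q, y')
      have h4 : Φ h (q, y') = ∑ i, ∑ x, h (i, x) *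
        (SkewMonoidAlgebra.single (bx x) 1 * r i q).coeff (bx y') := rfl
      rw [h4] at h3
      rw [Finset.sum_congr rfl fun i _ => Finset.sum_congr rfl fun x _ =>
        coeff_single_mul' (bx x) (h (i, x)) (r i q) (bx y'), h3]
      rfl
    · refine Finset.sum_eq_zero fun i _ => Finset.sum_eq_zero fun x _ => ?_
      by_contra hne'
      obtain ⟨z, hz, hxz⟩ := exists_of_coeff_ne hne'
      apply hy
      have hz' := hr i q z hz
      refine ⟨fun j => ⟨(x j : ℕ) + Multiplicative.toAdd (z j), ?_⟩, ?_⟩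
      · have := (x j).2
        have := hz' j
        omega
      · rw [← hxz]
        rfl

end Pool.Agent.NCA
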