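import Pool.Agent.NCA.Sum
import Pool.Agent.NCA.Phi
import Pool.Agent.NCA.SkewRank

/-!
Project NCA, module Cut: if a weighted automaton with `s` states gives weight zero to all tuples of words
of total length `< s` then all weights are zero.

Plan.  Suppose not and let `m` be minimal with `run u N v m ≠ 0`; so `card Q ≤ m`, and
`c := Phi (run u N v m) ≠ 0` (`Phi_injective`).  Put `I = Fin (m + 1)`,
`r l q = Phi (∑ p, u p • (stepM N ^ l) p q)`; the exponents are `≤ m` (`Phi_support`, `coeff_pow_ne_zero`).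
`exists_relation` gives `H`, not all zero, with `∑ l, H l * r l q = 0` for all `q`.  Let `l1` be the largest
`l` with `H l ≠ 0`.  Multiply from the right by `Phi (∑ q', v q' • (stepM N ^ (m - l1)) q q')` and sum over
`q`: `∑ q, r l q * Phi (∑ q', v q' • (stepM N ^ (m - l1)) q q') = Phi (run u N v (l + m - l1))` (`Phi_mul`,
`map_sum`, `pow_add`, `Matrix.mul_apply`), which is `0` for `l < l1` (minimality of `m`) and `c` for `l = l1`.
So `H l1 * c = 0`, a contradiction to `skew_mul_ne_zero`.
-/

set_option autoImplicit false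

namespace Pool.Agent.NCA

open Pool.Agent.NCK (PCA xv)

variable {K : Type*} [Field K] {n k : ℕ}

private theorem sum_mul_aux {R : Type*} [Ring R] [Algebra K R] {Q : Type*} [Fintype Q] [DecidableEq Q]
    (u v : Q → K) (A B : Matrix Q Q R) :
    ∑ q, (∑ p, u p • A p q) * (∑ q', v q' • B q q') = ∑ p, ∑ q', (u p * v q') • (A * B) p q' := by
  simp only [Matrix.mul_apply, Finset.sum_mul, Finset.mul_sum, Finset.smul_sum, smul_mul_assoc,
    mul_smul_comm, smul_smul]
  rw [Finset.sum_comm]
  conv_rhs => rw [Finset.sum_comm]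
  refine Finset.sum_congr rfl fun q' _ => ?_
  rw [Finset.sum_comm]
  refine Finset.sum_congr rfl fun p _ => ?_
  refine Finset.sum_congr rfl fun q _ => ?_
  rw [mul_comm]

theorem cutoff {Q : Type*} [Fintype Q] [DecidableEq Q] (u : Q → K)
    (N : Fin k → Fin n → Matrix Q Q K) (v : Q → K)
    (h : ∀ l < Fintype.card Q, run u N v l = 0) : ∀ l, run u N v l = 0 := by
  classical
  by_contra hcon
  push Not at hcon
  set m := Nat.find hcon with hm
  have hm1 : run u N v m ≠ 0 := Nat.find_spec hcon
  have hm2 : ∀ l, l < m → run u N v l = 0 := fun l hl => by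
    have := Nat.find_min hcon hl
    push Not at this
    exact this
  have hQm : Fintype.card Q ≤ m := by
    by_contra hlt
    push Not at hlt
    exact hm1 (h m hlt)
  have hc : Phi K k n (run u N v m) ≠ 0 := by
    intro h0
    apply hm1
    apply Phi_injective
    rw [h0, map_zero]
  let f : Fin (m + 1) → Q → PCA K n k := fun l q => ∑ p, u p • (stepM N ^ (l : ℕ)) p q
  have hf : ∀ l q w, (f l q).coeff w ≠ 0 → len w ≤ m := by
    intro l q w hw
    have : ∃ p, ((stepM N ^ (l : ℕ)) p q).coeff w ≠ 0 := by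
      by_contra hno
      push Not at hno
      apply hw
      simp only [f]
      rw [MonoidAlgebra.coeff_sum, Finsupp.finsetSum_apply]
      refine Finset.sum_eq_zero fun p _ => ?_
      rw [MonoidAlgebra.coeff_smul, Finsupp.smul_apply, hno p, smul_zero]
    obtain ⟨p, hp⟩ := this
    have := coeff_pow_ne_zero N (l : ℕ) p q w hp
    have hl := l.2
    omega
  obtain ⟨H, ⟨i0, hi0⟩, hH⟩ := exists_relation (K := K) (n := n) (k := k) (Q := Q) (I := Fin (m + 1))
    (by rw [Fintype.card_fin]; omega) m (fun l q => Phi K k n (f l q))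
    (fun l q x hx j => Phi_support (hf l q) x hx j)
  obtain ⟨l1, hl1, hmax⟩ := Finset.exists_max_image (Finset.univ.filter fun i => H i ≠ 0)
    (fun i : Fin (m + 1) => (i : ℕ)) ⟨i0, by simp [hi0]⟩
  have hl1' : H l1 ≠ 0 := by simpa using hl1
  have hmax' : ∀ i : Fin (m + 1), (l1 : ℕ) < i → H i = 0 := by
    intro i hi
    by_contra hne
    have := hmax i (by simp [hne])
    omega
  have hprod : ∀ l : Fin (m + 1), ∑ q, Phi K k n (f l q) *
      Phi K k n (∑ q', v q' • (stepM N ^ (m - (l1 : ℕ))) q q') =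
      Phi K k n (run u N v ((l : ℕ) + (m - (l1 : ℕ)))) := by
    intro l
    simp only [← Phi_mul]
    rw [← map_sum]
    congr 1
    simp only [f]
    rw [sum_mul_aux, ← pow_add]
    rfl
  have hzero : ∑ q, (∑ i, H i * Phi K k n (f i q)) *
      Phi K k n (∑ q', v q' • (stepM N ^ (m - (l1 : ℕ))) q q') = 0 := by
    refine Finset.sum_eq_zero fun q _ => ?_
    rw [hH q, zero_mul]
  have hswap : ∑ q, (∑ i, H i * Phi K k n (f i q)) *
      Phi K k n (∑ q', v q' • (stepM N ^ (m - (l1 : ℕ))) q q') =
      ∑ i, H i * Phi K k n (run u N v ((i : ℕ) + (m - (l1 : ℕ)))) := by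
    simp only [← hprod, Finset.sum_mul, Finset.mul_sum, mul_assoc]
    rw [Finset.sum_comm]
  rw [hswap, Finset.sum_eq_single l1] at hzero
  · have e : (l1 : ℕ) + (m - (l1 : ℕ)) = m := by
      have := l1.2
      omega
    rw [e] at hzero
    exact skew_mul_ne_zero hl1' hc hzero
  · intro i _ hi
    rcases lt_trichotomy (i : ℕ) (l1 : ℕ) with hlt | heq | hgt
    · rw [hm2 _ (by have := l1.2; omega), map_zero, mul_zero]
    · exact absurd (Fin.ext heq) hi
    · rw [hmax' i hgt, zero_mul]
  · intro hno
    exact absurd (Finset.mem_univ l1) hno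

end Pool.Agent.NCA
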