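import Pool.Agent.NCK.Main
import Pool.Agent.NCK.Closed
import Pool.Agent.NCA.Abp
import Pool.Agent.NCA.Cut

/-!
Project NCA: equivalence of weighted automata with `k` tapes at one explicit tuple of matrices.
-/

set_option autoImplicit false

namespace Pool.Agent.NCA

open Pool.Agent.NCK (PCA xv kev IsPABP)

variable {K : Type*} [Field K] {n k : ℕ}

theorem weight_sub {Q₁ Q₂ : Type*} [Fintype Q₁] [DecidableEq Q₁] [Fintype Q₂] [DecidableEq Q₂]
    (u₁ v₁ : Q₁ → K) (N₁ : Fin k → Fin n → Matrix Q₁ Q₁ K)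
    (u₂ v₂ : Q₂ → K) (N₂ : Fin k → Fin n → Matrix Q₂ Q₂ K) (w : Wd k n) :
    weight (Sum.elim u₁ (fun q => - u₂ q))
        (fun j a => Matrix.fromBlocks (N₁ j a) 0 0 (N₂ j a)) (Sum.elim v₁ v₂) w =
      weight u₁ N₁ v₁ w - weight u₂ N₂ v₂ w := by
  unfold weight
  rw [run_sub]
  rfl

/-- If all tuples of words of total length less than the number of states have weight zero then all
weights are zero. -/
theorem weight_zero_of_short {Q : Type*} [Fintype Q] [DecidableEq Q] (u v : Q → K)
    (N : Fin k → Fin n → Matrix Q Q K)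
    (h : ∀ w, len w < Fintype.card Q → weight u N v w = 0) (w : Wd k n) : weight u N v w = 0 := by
  have h0 : ∀ l < Fintype.card Q, run u N v l = 0 := by
    intro l hl
    by_contra hne
    obtain ⟨w, hw⟩ : ∃ w, (run u N v l).coeff w ≠ 0 := by
      by_contra hall
      push Not at hall
      exact hne (MonoidAlgebra.ext (Finsupp.ext fun w => by simpa using hall w))
    have hl' := coeff_run_ne_zero _ _ _ _ _ hw
    have h2 := h w (by omega)
    rw [weight, hl'] at h2
    exact hw h2
  rw [weight, cutoff _ _ _ h0 (len w)]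
  rfl

theorem run_eq_zero_of_weight {Q : Type*} [Fintype Q] [DecidableEq Q] (u v : Q → K)
    (N : Fin k → Fin n → Matrix Q Q K) (h : ∀ w, weight u N v w = 0) (l : ℕ) :
    run u N v l = 0 := by
  by_contra hne
  obtain ⟨w, hw⟩ : ∃ w, (run u N v l).coeff w ≠ 0 := by
    by_contra hall
    push Not at hall
    exact hne (MonoidAlgebra.ext (Finsupp.ext fun w => by simpa using hall w))
  have hl' := coeff_run_ne_zero _ _ _ _ _ hw
  have h2 := h w
  rw [weight, hl'] at h2
  exact hw h2

/-- Two weighted automata with at most `s` states together are equivalent iff their parts of length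
`l < s` have the same values at the explicit matrices. -/
theorem equiv_iff [CharZero K] {Q₁ Q₂ : Type*} [Fintype Q₁] [DecidableEq Q₁] [Fintype Q₂]
    [DecidableEq Q₂] (u₁ v₁ : Q₁ → K) (N₁ : Fin k → Fin n → Matrix Q₁ Q₁ K)
    (u₂ v₂ : Q₂ → K) (N₂ : Fin k → Fin n → Matrix Q₂ Q₂ K) (s : ℕ)
    (hs : Fintype.card Q₁ + Fintype.card Q₂ ≤ s) :
    (∀ w, weight u₁ N₁ v₁ w = weight u₂ N₂ v₂ w) ↔
      ∀ l < s, kev K (fun j : Fin k => (2 * n * (s * s + 1)) ^ (2 * k * 3 ^ (j : ℕ)))
          (run u₁ N₁ v₁ l) =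
        kev K (fun j : Fin k => (2 * n * (s * s + 1)) ^ (2 * k * 3 ^ (j : ℕ)))
          (run u₂ N₂ v₂ l) := by
  constructor
  · intro h l _
    have h1 : run u₁ N₁ v₁ l - run u₂ N₂ v₂ l = 0 := by
      rw [← run_sub]
      refine run_eq_zero_of_weight _ _ _ (fun w => ?_) l
      rw [weight_sub, h w, sub_self]
    rw [sub_eq_zero.1 h1]
  · intro h w
    have h0 : ∀ l < Fintype.card (Q₁ ⊕ Q₂), run (Sum.elim u₁ (fun q => - u₂ q))
        (fun j a => Matrix.fromBlocks (N₁ j a) 0 0 (N₂ j a)) (Sum.elim v₁ v₂) l = 0 := by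
      intro l hl
      rw [Fintype.card_sum] at hl
      by_contra hne
      have h2 := run_abp (Sum.elim u₁ (fun q => - u₂ q))
        (fun j a => Matrix.fromBlocks (N₁ j a) 0 0 (N₂ j a)) (Sum.elim v₁ v₂) s l
        (by rw [Fintype.card_sum]; exact hs) (by omega)
      have h3 := NCK.pabp_hit _ (s * s + 1) _ h2 hne (NCK.sizes_ok n (s * s + 1) k)
      apply h3
      rw [run_sub, map_sub, h l (by omega), sub_self]
    have h4 := cutoff _ _ _ h0 (len w)
    have h5 := weight_sub u₁ v₁ N₁ u₂ v₂ N₂ w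
    rw [weight, h4] at h5
    exact sub_eq_zero.1 h5.symm

end Pool.Agent.NCA
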