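import Pool.Agent.NCK.Defs

/-!
Project NCA (MP_e2be99_lc): weighted automata with `k` tapes (partially commuting variables, cycles
allowed), on top of NCK.  Definitions.
-/

set_option autoImplicit false

namespace Pool.Agent.NCA

open Pool.Agent.NCK (PCA xv)

/-- Tuples of words, one for each of `k` tapes. -/
abbrev Wd (k n : ℕ) : Type := Fin k → FreeMonoid (Fin n)

/-- The total length of a tuple of words. -/
def len {k n : ℕ} (w : Wd k n) : ℕ := ∑ j, (w j).toList.length

/-- The transition matrix of the weighted automaton with states `Q` and weights `N j i p q` (of the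
transition from `p` to `q` which reads the letter `i` on tape `j`). -/
noncomputable def stepM {K : Type*} [Field K] {n k : ℕ} {Q : Type*}
    (N : Fin k → Fin n → Matrix Q Q K) : Matrix Q Q (PCA K n k) :=
  Matrix.of fun p q => ∑ j, ∑ i, N j i p q • xv K j i

/-- The sum of all runs of length `l` (`u` and `v` are the initial and final weights). -/
noncomputable def run {K : Type*} [Field K] {n k : ℕ} {Q : Type*} [Fintype Q] [DecidableEq Q]
    (u : Q → K) (N : Fin k → Fin n → Matrix Q Q K) (v : Q → K) (l : ℕ) : PCA K n k :=
  ∑ p, ∑ q, (u p * v q) • ((stepM N ^ l) p q)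

/-- The weight of a tuple of words: the sum of the weights of all runs which read it. -/
noncomputable def weight {K : Type*} [Field K] {n k : ℕ} {Q : Type*} [Fintype Q] [DecidableEq Q]
    (u : Q → K) (N : Fin k → Fin n → Matrix Q Q K) (v : Q → K) (w : Wd k n) : K :=
  (run u N v (len w)).coeff w

end Pool.Agent.NCA
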