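import Pool.Agent.NCA.Defs

/-!
Project NCA, module Skew: the skew monoid algebra `SS` over the polynomial ring `BB` with one variable
for every tape, position and letter; the exponents (`GG`) act by shifting the positions.  It has no zero
divisors.

The instance `shiftAct` is given; `smul_def` is its defining formula.
Plan.  `smul_eq_zero_iff`: `MvPolynomial.rename_injective` (the map `(j, i, a) ↦ (j, i + x_j, a)` is injective).
`SS` has no zero divisors: for `f, g ≠ 0` take (`UniqueProds.uniqueMul_of_nonempty` for the supports, the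
instance for `Fin k → Multiplicative ℕ` comes from `UniqueProds.instForall`) `a ∈ f.support`, `b ∈ g.support`
with `UniqueMul`; the coefficient of `f * g` at `a * b` is `f.coeff a * (a • g.coeff b) ≠ 0` (expand with
`SkewMonoidAlgebra.mul_def`; compare `MonoidAlgebra.NoZeroDivisors` in Mathlib).
-/

set_option autoImplicit false

namespace Pool.Agent.NCA

/-- The coefficient ring. -/
abbrev BB (K : Type*) [Field K] (k n : ℕ) : Type _ := MvPolynomial (Fin k × ℕ × Fin n) K

/-- The exponents. -/
abbrev GG (k : ℕ) : Type := Fin k → Multiplicative ℕ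

/-- Shift of the positions. -/
def shiftVar {k n : ℕ} (x : GG k) (v : Fin k × ℕ × Fin n) : Fin k × ℕ × Fin n :=
  (v.1, v.2.1 + Multiplicative.toAdd (x v.1), v.2.2)

theorem shiftVar_one {k n : ℕ} : (shiftVar (1 : GG k) : Fin k × ℕ × Fin n → _) = id := by
  funext v
  simp [shiftVar]

theorem shiftVar_mul {k n : ℕ} (x y : GG k) :
    (shiftVar (x * y) : Fin k × ℕ × Fin n → _) = shiftVar x ∘ shiftVar y := by
  funext v
  simp only [shiftVar, Function.comp_apply, Pi.mul_apply, toAdd_mul]
  congr 2
  ring

/-- The exponents act on the coefficient ring by shifting the positions. -/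
noncomputable instance shiftAct (K : Type*) [Field K] (k n : ℕ) :
    MulSemiringAction (GG k) (BB K k n) where
  smul x b := MvPolynomial.rename (shiftVar x) b
  one_smul b := by
    show MvPolynomial.rename (shiftVar (1 : GG k)) b = b
    rw [shiftVar_one, MvPolynomial.rename_id_apply]
  mul_smul x y b := by
    show MvPolynomial.rename (shiftVar (x * y)) b =
      MvPolynomial.rename (shiftVar x) (MvPolynomial.rename (shiftVar y) b)
    rw [MvPolynomial.rename_rename, shiftVar_mul]
  smul_zero x := map_zero _
  smul_add x b c := map_add _ b c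
  smul_one x := map_one _
  smul_mul x b c := map_mul _ b c

theorem smul_def' {K : Type*} [Field K] {k n : ℕ} (x : GG k) (b : BB K k n) :
    x • b = MvPolynomial.rename (shiftVar x) b := rfl

/-- The skew monoid algebra. -/
abbrev SS (K : Type*) [Field K] (k n : ℕ) : Type _ := SkewMonoidAlgebra (BB K k n) (GG k)

private theorem shiftVar_inj {k n : ℕ} (x : GG k) :
    Function.Injective (shiftVar x : Fin k × ℕ × Fin n → _) := by
  rintro ⟨j, i, a⟩ ⟨j', i', a'⟩ h
  simp only [shiftVar, Prod.mk.injEq] at h
  obtain ⟨h1, h2, h3⟩ := h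
  subst h1
  subst h3
  have h4 : i = i' := Nat.add_right_cancel h2
  rw [h4]

theorem smul_ne_zero' {K : Type*} [Field K] {k n : ℕ} (x : GG k) {b : BB K k n} (hb : b ≠ 0) :
    x • b ≠ 0 := by
  rw [smul_def']
  intro h
  exact hb (MvPolynomial.rename_injective _ (shiftVar_inj x) (by rw [h, map_zero]))

theorem skew_mul_ne_zero {K : Type*} [Field K] {k n : ℕ} {f g : SS K k n} (hf : f ≠ 0)
    (hg : g ≠ 0) : f * g ≠ 0 := by
  classical
  have hf' : f.coeff.support.Nonempty := by
    rw [Finsupp.support_nonempty_iff]
    exact fun h => hf (SkewMonoidAlgebra.coeff_eq_zero.1 h)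
  have hg' : g.coeff.support.Nonempty := by
    rw [Finsupp.support_nonempty_iff]
    exact fun h => hg (SkewMonoidAlgebra.coeff_eq_zero.1 h)
  obtain ⟨a, ha, b, hb, h⟩ := UniqueProds.uniqueMul_of_nonempty hf' hg'
  have key : (f * g).coeff (a * b) = f.coeff a * (a • g.coeff b) := by
    rw [SkewMonoidAlgebra.coeff_mul, SkewMonoidAlgebra.sum_def']
    rw [Finset.sum_eq_single a]
    · rw [SkewMonoidAlgebra.sum_def', Finset.sum_eq_single b]
      · rw [if_pos rfl]
      · intro b' hb' hne
        rw [if_neg]
        intro he
        exact hne (h ha hb' he).2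
      · intro hb'
        exact absurd hb hb'
    · intro a' ha' hne
      rw [SkewMonoidAlgebra.sum_def']
      refine Finset.sum_eq_zero fun b' hb' => ?_
      rw [if_neg]
      intro he
      exact hne (h ha' hb' he).1
    · intro ha'
      exact absurd ha ha'
  intro h0
  rw [h0] at key
  have h1 : f.coeff a ≠ 0 := Finsupp.mem_support_iff.1 ha
  have h2 : g.coeff b ≠ 0 := Finsupp.mem_support_iff.1 hb
  have h3 := mul_ne_zero h1 (smul_ne_zero' a h2)
  apply h3
  rw [← key]
  rfl

end Pool.Agent.NCA
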