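import Mathlib
import Pool.Agent.NCA.Defs

/-!
Project NCA, module Sum: the difference of two weighted automata.

Plan.  `stepM` of the block diagonal transition matrices is block diagonal
(`Matrix.fromBlocks_apply..`), so its powers are (`Matrix.fromBlocks_multiply`, induction on `l`), and
`Fintype.sum_sum_type` splits the sums in `run`.
`coeff_run`: `(stepM N ^ l) p q` is supported on tuples of total length `l` (induction on `l`: `pow_succ`,
`MonoidAlgebra.mul_def` or `MonoidAlgebra.support_mul`, `len` is additive: `len (v * w) = len v + len w`,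
`len (Pi.mulSingle j (FreeMonoid.of a)) = 1`, `len 1 = 0`).
-/

set_option autoImplicit false

namespace Pool.Agent.NCA

open Pool.Agent.NCK (PCA xv)

variable {K : Type*} [Field K] {n k : ℕ}

theorem len_mul (v w : Wd k n) : len (v * w) = len v + len w := by
  rw [len, len, len, ← Finset.sum_add_distrib]
  refine Finset.sum_congr rfl fun j _ => ?_
  rw [Pi.mul_apply, FreeMonoid.toList_mul, List.length_append]

theorem len_letter (j : Fin k) (a : Fin n) : len (Pi.mulSingle j (FreeMonoid.of a)) = 1 := by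
  rw [len, Finset.sum_eq_single j]
  · rw [Pi.mulSingle_eq_same, FreeMonoid.toList_of, List.length_singleton]
  · intro l _ hl
    rw [Pi.mulSingle_eq_of_ne hl, FreeMonoid.toList_one, List.length_nil]
  · intro h
    exact absurd (Finset.mem_univ j) h

private theorem len_one : len (1 : Wd k n) = 0 := by
  rw [len]
  refine Finset.sum_eq_zero fun j _ => ?_
  rw [Pi.one_apply, FreeMonoid.toList_one, List.length_nil]

private def Sp (l : ℕ) (f : PCA K n k) : Prop := ∀ w, f.coeff w ≠ 0 → len w = l

private theorem sp_zero (l : ℕ) : Sp l (0 : PCA K n k) := by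
  intro w hw
  rw [MonoidAlgebra.coeff_zero] at hw
  exact absurd rfl hw

private theorem sp_add (l : ℕ) (f g : PCA K n k) (hf : Sp l f) (hg : Sp l g) : Sp l (f + g) := by
  intro w hw
  by_cases h : f.coeff w = 0
  · refine hg w fun h2 => hw ?_
    rw [MonoidAlgebra.coeff_add, Finsupp.add_apply, h, h2, add_zero]
  · exact hf w h

private theorem sp_sum (l : ℕ) {ι : Type*} (t : Finset ι) (f : ι → PCA K n k)
    (hf : ∀ i ∈ t, Sp l (f i)) : Sp l (∑ i ∈ t, f i) := by
  classical
  induction t using Finset.induction_on with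
  | empty => rw [Finset.sum_empty]; exact sp_zero l
  | insert i t hi ih =>
    rw [Finset.sum_insert hi]
    exact sp_add l _ _ (hf i (Finset.mem_insert_self i t))
      (ih fun j hj => hf j (Finset.mem_insert_of_mem hj))

private theorem sp_smul (l : ℕ) (c : K) (f : PCA K n k) (hf : Sp l f) : Sp l (c • f) := by
  intro w hw
  refine hf w fun h => hw ?_
  rw [MonoidAlgebra.coeff_smul, Finsupp.smul_apply, h, smul_zero]

private theorem sp_mul (a b : ℕ) (f g : PCA K n k) (hf : Sp a f) (hg : Sp b g) :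
    Sp (a + b) (f * g) := by
  classical
  intro w hw
  obtain ⟨u, hu, v, hv, rfl⟩ := Finset.mem_mul.1
    (MonoidAlgebra.support_coeff_mul_subset f g (Finsupp.mem_support_iff.2 hw))
  rw [len_mul, hf u (Finsupp.mem_support_iff.1 hu), hg v (Finsupp.mem_support_iff.1 hv)]

private theorem sp_single (w : Wd k n) (c : K) :
    Sp (len w) (MonoidAlgebra.single w c : PCA K n k) := by
  classical
  intro v hv
  rw [MonoidAlgebra.coeff_single] at hv
  by_cases h : w = v
  · rw [h]
  · exact absurd (Finsupp.single_eq_of_ne (Ne.symm h)) hv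

theorem coeff_pow_ne_zero {Q : Type*} [Fintype Q] [DecidableEq Q]
    (N : Fin k → Fin n → Matrix Q Q K) (l : ℕ) (p q : Q) (w : Wd k n)
    (h : ((stepM N ^ l) p q).coeff w ≠ 0) : len w = l := by
  have key : ∀ (l : ℕ) (p q : Q), Sp l ((stepM N ^ l) p q) := by
    intro l
    induction l with
    | zero =>
      intro p q
      rw [pow_zero, Matrix.one_apply]
      split_ifs
      · have h1 := sp_single (K := K) (1 : Wd k n) 1
        rw [len_one] at h1
        exact h1
      · exact sp_zero 0
    | succ l ih =>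
      intro p q
      rw [pow_succ, Matrix.mul_apply]
      refine sp_sum _ _ _ fun r _ => sp_mul l 1 _ _ (ih p r) ?_
      rw [stepM, Matrix.of_apply]
      refine sp_sum _ _ _ fun j _ => sp_sum _ _ _ fun i _ => sp_smul _ _ _ ?_
      have h1 := sp_single (K := K) (Pi.mulSingle j (FreeMonoid.of i) : Wd k n) 1
      rw [len_letter] at h1
      exact h1
  exact key l p q w h

theorem coeff_run_ne_zero {Q : Type*} [Fintype Q] [DecidableEq Q] (u : Q → K)
    (N : Fin k → Fin n → Matrix Q Q K) (v : Q → K) (l : ℕ) (w : Wd k n)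
    (h : (run u N v l).coeff w ≠ 0) : len w = l := by
  have h1 : Sp l (run u N v l) := by
    rw [run]
    exact sp_sum _ _ _ fun p _ => sp_sum _ _ _ fun q _ => sp_smul _ _ _
      fun w hw => coeff_pow_ne_zero N l p q w hw
  exact h1 w h

private theorem stepM_blocks {Q₁ Q₂ : Type*} (N₁ : Fin k → Fin n → Matrix Q₁ Q₁ K)
    (N₂ : Fin k → Fin n → Matrix Q₂ Q₂ K) :
    stepM (fun j a => Matrix.fromBlocks (N₁ j a) 0 0 (N₂ j a)) =
      Matrix.fromBlocks (stepM N₁) 0 0 (stepM N₂) := by
  ext p q
  rcases p with p | p <;> rcases q with q | q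
  · rw [Matrix.fromBlocks_apply₁₁, stepM, Matrix.of_apply, stepM, Matrix.of_apply]
    simp only [Matrix.fromBlocks_apply₁₁]
  · rw [Matrix.fromBlocks_apply₁₂, stepM, Matrix.of_apply, Matrix.zero_apply]
    simp only [Matrix.fromBlocks_apply₁₂, Matrix.zero_apply, zero_smul, Finset.sum_const_zero]
  · rw [Matrix.fromBlocks_apply₂₁, stepM, Matrix.of_apply, Matrix.zero_apply]
    simp only [Matrix.fromBlocks_apply₂₁, Matrix.zero_apply, zero_smul, Finset.sum_const_zero]
  · rw [Matrix.fromBlocks_apply₂₂, stepM, Matrix.of_apply, stepM, Matrix.of_apply]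
    simp only [Matrix.fromBlocks_apply₂₂]

private theorem pow_blocks {R : Type*} [Ring R] {Q₁ Q₂ : Type*} [Fintype Q₁] [DecidableEq Q₁]
    [Fintype Q₂] [DecidableEq Q₂] (A : Matrix Q₁ Q₁ R) (B : Matrix Q₂ Q₂ R) (l : ℕ) :
    Matrix.fromBlocks A 0 0 B ^ l = Matrix.fromBlocks (A ^ l) 0 0 (B ^ l) := by
  induction l with
  | zero => rw [pow_zero, pow_zero, pow_zero, Matrix.fromBlocks_one]
  | succ l ih =>
    rw [pow_succ, ih, Matrix.fromBlocks_multiply, pow_succ, pow_succ]
    simp only [Matrix.mul_zero, Matrix.zero_mul, add_zero, zero_add]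

theorem run_sub {Q₁ Q₂ : Type*} [Fintype Q₁] [DecidableEq Q₁] [Fintype Q₂] [DecidableEq Q₂]
    (u₁ v₁ : Q₁ → K) (N₁ : Fin k → Fin n → Matrix Q₁ Q₁ K)
    (u₂ v₂ : Q₂ → K) (N₂ : Fin k → Fin n → Matrix Q₂ Q₂ K) (l : ℕ) :
    run (Sum.elim u₁ (fun q => - u₂ q))
        (fun j a => Matrix.fromBlocks (N₁ j a) 0 0 (N₂ j a)) (Sum.elim v₁ v₂) l =
      run u₁ N₁ v₁ l - run u₂ N₂ v₂ l := by
  rw [run, stepM_blocks, pow_blocks]
  simp only [Fintype.sum_sum_type, Sum.elim_inl, Sum.elim_inr, Matrix.fromBlocks_apply₁₁,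
    Matrix.fromBlocks_apply₁₂, Matrix.fromBlocks_apply₂₁, Matrix.fromBlocks_apply₂₂,
    Matrix.zero_apply, smul_zero, Finset.sum_const_zero, add_zero, zero_add, neg_mul, neg_smul,
    Finset.sum_neg_distrib]
  rw [run, run, sub_eq_add_neg]

end Pool.Agent.NCA
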